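import Pool.Agent.H787.G.R_seed8.R289.RN.NORM1

/-! NORM, part 2: the induction -/

set_option autoImplicit false

namespace R289.NORM

open Matrix Polynomial Module

theorem good_scalar {ι V : Type} [AddCommGroup V] [Module ℝ V] [FiniteDimensional ℝ V]
    (S : ι → Module.End ℝ V) (h : ∀ i, ∃ a : ℝ, S i = a • 1) : Good S := by
  refine ⟨Fin (finrank ℝ V), inferInstance, inferInstance, Module.finBasis ℝ V, fun i => ?_⟩
  obtain ⟨a, ha⟩ := h i
  have : LinearMap.toMatrix (Module.finBasis ℝ V) (Module.finBasis ℝ V) (S i) =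
      a • (1 : Matrix _ _ ℝ) := by
    rw [ha, map_smul]
    congr 1
    exact LinearMap.toMatrix_one _
  rw [this]
  simp

/-- two commuting complex structures agree up to sign when nothing splits -/
theorem two_J {ι V : Type} [AddCommGroup V] [Module ℝ V] (S : ι → Module.End ℝ V)
    (H : ∀ W₁ W₂ : Submodule ℝ V, (∀ i, ∀ x ∈ W₁, S i x ∈ W₁) → (∀ i, ∀ x ∈ W₂, S i x ∈ W₂) →
      IsCompl W₁ W₂ → W₁ = ⊥ ∨ W₂ = ⊥)
    (J J' : Module.End ℝ V) (h1 : J * J = -1) (h2 : J' * J' = -1) (hc : Commute J J')
    (hJ : ∀ i, Commute (S i) J) (hJ' : ∀ i, Commute (S i) J') : J' = J ∨ J' = -J := by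
  have hK : (J * J') * (J * J') = 1 := by
    have : (J * J') * (J * J') = (J * J) * (J' * J') := by
      rw [mul_assoc, ← mul_assoc J' J J', ← hc.eq, mul_assoc J J' J', ← mul_assoc]
    rw [this, h1, h2]
    simp
  have hSK : ∀ i, Commute (S i) (J * J') := fun i => (hJ i).mul_right (hJ' i)
  have hcompl : IsCompl (LinearMap.ker (J * J' - 1)) (LinearMap.ker (J * J' + 1)) := by
    constructor
    · rw [disjoint_iff, Submodule.eq_bot_iff]
      rintro x ⟨hx1, hx2⟩
      have e1 : (J * J') x - x = 0 := hx1
      have e2 : (J * J') x + x = 0 := hx2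
      have e3 : (2 : ℝ) • x = 0 := by
        have : (2 : ℝ) • x = ((J * J') x + x) - ((J * J') x - x) := by module
        rw [this, e1, e2, sub_zero]
      exact (smul_eq_zero.1 e3).resolve_left two_ne_zero
    · rw [codisjoint_iff, Submodule.eq_top_iff']
      intro x
      have hKx : (J * J') ((J * J') x) = x := by
        have := congrArg (fun T : Module.End ℝ V => T x) hK
        exact this
      rw [Submodule.mem_sup]
      refine ⟨(1 / 2 : ℝ) • (x + (J * J') x), ?_, (1 / 2 : ℝ) • (x - (J * J') x), ?_, ?_⟩
      · show (J * J') ((1 / 2 : ℝ) • (x + (J * J') x)) - (1 / 2 : ℝ) • (x + (J * J') x) = 0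
        rw [map_smul, map_add, hKx]
        module
      · show (J * J') ((1 / 2 : ℝ) • (x - (J * J') x)) + (1 / 2 : ℝ) • (x - (J * J') x) = 0
        rw [map_smul, map_sub, hKx]
        module
      · module
  have hcom1 : ∀ i, Commute (S i) (J * J' - 1) := fun i => (hSK i).sub_right (Commute.one_right _)
  have hcom2 : ∀ i, Commute (S i) (J * J' + 1) := fun i => (hSK i).add_right (Commute.one_right _)
  have hmul : (J * J' - 1) * (J * J' + 1) = 0 := by
    rw [sub_mul, mul_add, hK, mul_one, one_mul]
    abel
  rcases H _ _ (fun i => inv_ker (hcom1 i)) (fun i => inv_ker (hcom2 i)) hcompl with h | h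
  · -- J * J' = -1
    left
    have h3 : J * J' + 1 = 0 := by
      ext x
      have h4 : (J * J' + 1) x ∈ LinearMap.ker (J * J' - 1) := by
        rw [LinearMap.mem_ker]
        have := congrArg (fun T : Module.End ℝ V => T x) hmul
        exact this
      rw [h] at h4
      exact h4
    have h5 : J * (J * J' + 1) = 0 := by rw [h3, mul_zero]
    rw [mul_add, ← mul_assoc, h1, mul_one, neg_mul, one_mul] at h5
    have h6 := eq_neg_of_add_eq_zero_left h5
    rw [neg_inj] at h6
    exact h6
  · right
    have hmul' : (J * J' + 1) * (J * J' - 1) = 0 := by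
      rw [add_mul, mul_sub, hK, mul_one, one_mul]
      abel
    have h3 : J * J' - 1 = 0 := by
      ext x
      have h4 : (J * J' - 1) x ∈ LinearMap.ker (J * J' + 1) := by
        rw [LinearMap.mem_ker]
        have := congrArg (fun T : Module.End ℝ V => T x) hmul'
        exact this
      rw [h] at h4
      exact h4
    have h5 : J * (J * J' - 1) = 0 := by rw [h3, mul_zero]
    rw [mul_sub, ← mul_assoc, h1, mul_one, neg_mul, one_mul] at h5
    have h6 : -J' = J := sub_eq_zero.1 h5
    rw [← h6, neg_neg]

theorem good_all {ι : Type} (n : ℕ) : ∀ (V : Type) [AddCommGroup V] [Module ℝ V]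
    [FiniteDimensional ℝ V] (S : ι → Module.End ℝ V), finrank ℝ V ≤ n →
    (∀ i, (S i).IsSemisimple) → (∀ i j, Commute (S i) (S j)) → Good S := by
  induction n with
  | zero =>
    intro V _ _ _ S hn _ _
    have h0 : finrank ℝ V = 0 := by omega
    have hsub : Subsingleton V := finrank_zero_iff.1 h0
    refine good_scalar S fun i => ⟨0, ?_⟩
    ext x
    exact Subsingleton.elim _ _
  | succ n ih =>
    intro V _ _ _ S hn hss hcom
    by_cases H : ∃ W₁ W₂ : Submodule ℝ V, (∀ i, ∀ x ∈ W₁, S i x ∈ W₁) ∧
        (∀ i, ∀ x ∈ W₂, S i x ∈ W₂) ∧ IsCompl W₁ W₂ ∧ W₁ ≠ ⊥ ∧ W₂ ≠ ⊥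
    · obtain ⟨W₁, W₂, h₁, h₂, hc, b₁, b₂⟩ := H
      have hW₁ : W₁ < ⊤ := by
        rw [lt_top_iff_ne_top]
        rintro rfl
        exact b₂ (by simpa using hc.inf_eq_bot)
      have hW₂ : W₂ < ⊤ := by
        rw [lt_top_iff_ne_top]
        rintro rfl
        exact b₁ (by simpa using hc.inf_eq_bot)
      have f₁ : finrank ℝ W₁ ≤ n := by
        have := Submodule.finrank_lt (lt_top_iff_ne_top.1 hW₁)
        omega
      have f₂ : finrank ℝ W₂ ≤ n := by
        have := Submodule.finrank_lt (lt_top_iff_ne_top.1 hW₂)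
        omega
      refine good_split S W₁ W₂ h₁ h₂ hc ?_ ?_
      · refine ih W₁ _ f₁ (fun i => (hss i).restrict (h₁ i)) fun i j => ?_
        show (S i).restrict (h₁ i) * (S j).restrict (h₁ j) =
          (S j).restrict (h₁ j) * (S i).restrict (h₁ i)
        ext x
        have := congrArg (fun T : Module.End ℝ V => T x) (hcom i j).eq
        exact this
      · refine ih W₂ _ f₂ (fun i => (hss i).restrict (h₂ i)) fun i j => ?_
        show (S i).restrict (h₂ i) * (S j).restrict (h₂ j) =
          (S j).restrict (h₂ j) * (S i).restrict (h₂ i)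
        ext x
        have := congrArg (fun T : Module.End ℝ V => T x) (hcom i j).eq
        exact this
    · have H' : ∀ W₁ W₂ : Submodule ℝ V, (∀ i, ∀ x ∈ W₁, S i x ∈ W₁) →
          (∀ i, ∀ x ∈ W₂, S i x ∈ W₂) → IsCompl W₁ W₂ → W₁ = ⊥ ∨ W₂ = ⊥ := by
        intro W₁ W₂ h₁ h₂ hc
        by_contra hcon
        push Not at hcon
        exact H ⟨W₁, W₂, h₁, h₂, hc, hcon.1, hcon.2⟩
      rcases subsingleton_or_nontrivial V with hV | hV
      · refine good_scalar S fun i => ⟨0, ?_⟩
        ext x
        exact Subsingleton.elim _ _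
      have hkey : ∀ i, ∃ (a b : ℝ) (J : Module.End ℝ V), S i = a • 1 + b • J ∧
          (b ≠ 0 → J * J = -1 ∧ J = b⁻¹ • (S i - a • 1)) := by
        intro i
        refine key (S i) (hss i) fun p q hpq => ?_
        exact H' _ _ (fun j => inv_ker (commute_aeval (hcom j i) p))
          (fun j => inv_ker (commute_aeval (hcom j i) q)) hpq
      by_cases hall : ∀ i, ∃ a : ℝ, S i = a • 1
      · exact good_scalar S hall
      push Not at hall
      obtain ⟨i₀, hi₀⟩ := hall
      obtain ⟨a₀, b₀, J, hSJ, hJ⟩ := hkey i₀
      have hb₀ : b₀ ≠ 0 := by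
        rintro rfl
        exact hi₀ a₀ (by rw [hSJ]; simp)
      obtain ⟨hJ1, hJ2⟩ := hJ hb₀
      have hcomJ : ∀ i, Commute (S i) J := by
        intro i
        rw [hJ2]
        exact ((hcom i i₀).sub_right ((Commute.one_right _).smul_right _)).smul_right _
      have hform : ∀ i, ∃ a b : ℝ, S i = a • 1 + b • J := by
        intro i
        obtain ⟨a, b, J', h1, h2⟩ := hkey i
        by_cases hb : b = 0
        · exact ⟨a, 0, by rw [h1, hb]; simp⟩
        obtain ⟨h3, h4⟩ := h2 hb
        have hcomJ' : ∀ j, Commute (S j) J' := by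
          intro j
          rw [h4]
          exact ((hcom j i).sub_right ((Commute.one_right _).smul_right _)).smul_right _
        have hJJ' : Commute J J' := by
          rw [hJ2]
          exact ((hcomJ' i₀).sub_left ((Commute.one_left _).smul_left _)).smul_left _
        rcases two_J S H' J J' hJ1 h3 hJJ' hcomJ hcomJ' with h | h
        · exact ⟨a, b, by rw [h1, h]⟩
        · exact ⟨a, -b, by rw [h1, h]; module⟩
      -- the two dimensional case
      obtain ⟨v, hv⟩ := exists_ne (0 : V)
      have hJv : ∀ x : V, J (J x) = -x := by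
        intro x
        have := congrArg (fun T : Module.End ℝ V => T x) hJ1
        simpa using this
      let W : Submodule ℝ V := Submodule.span ℝ {v, J v}
      have hWJ : ∀ x ∈ W, J x ∈ W := by
        intro x hx
        obtain ⟨s, t, rfl⟩ := Submodule.mem_span_pair.1 hx
        rw [map_add, map_smul, map_smul, hJv]
        refine Submodule.mem_span_pair.2 ⟨-t, s, ?_⟩
        module
      have hinvJ : ∀ U : Submodule ℝ V, (∀ x ∈ U, J x ∈ U) → ∀ i, ∀ x ∈ U, S i x ∈ U := by
        intro U hU i x hx
        obtain ⟨a, b, h⟩ := hform i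
        rw [h]
        exact U.add_mem (U.smul_mem a hx) (U.smul_mem b (hU x hx))
      obtain ⟨U, hU, hWU⟩ := (Module.End.isSemisimple_iff.1 (hss i₀)) W (hinvJ W hWJ i₀)
      have hUJ : ∀ x ∈ U, J x ∈ U := by
        intro x hx
        rw [hJ2]
        have h5 : S i₀ x ∈ U := hU hx
        exact U.smul_mem _ (U.sub_mem h5 (U.smul_mem _ hx))
      have hWtop : W = ⊤ := by
        rcases H' W U (hinvJ W hWJ) (hinvJ U hUJ) hWU with h | h
        · exfalso
          have : v ∈ W := Submodule.subset_span (by simp)
          rw [h] at this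
          exact hv this
        · have := hWU.sup_eq_top
          rwa [h, sup_bot_eq] at this
      have hlin : LinearIndependent ℝ ![v, J v] := by
        rw [LinearIndependent.pair_iff]
        intro s t hst
        have h6 := congrArg J hst
        rw [map_add, map_smul, map_smul, hJv, map_zero] at h6
        have h7 : (s ^ 2 + t ^ 2) • v = 0 := by
          have : (s ^ 2 + t ^ 2) • v = s • (s • v + t • J v) - t • (s • J v + t • -v) := by module
          rw [this, hst, h6]
          simp
        have h8 : s ^ 2 + t ^ 2 = 0 := (smul_eq_zero.1 h7).resolve_right hv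
        constructor <;> nlinarith [sq_nonneg s, sq_nonneg t]
      have hspan : ⊤ ≤ Submodule.span ℝ (Set.range ![v, J v]) := by
        rw [Matrix.range_cons, Matrix.range_cons, Matrix.range_empty, Set.union_empty,
          Set.singleton_union]
        exact hWtop.ge
      let β : Module.Basis (Fin 2) ℝ V := Module.Basis.mk hlin hspan
      have hβ0 : β 0 = v := by simp [β]
      have hβ1 : β 1 = J v := by simp [β]
      refine ⟨Fin 2, inferInstance, inferInstance, β, fun i => ?_⟩
      obtain ⟨a, b, h⟩ := hform i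
      have hM : LinearMap.toMatrix β β (S i) = !![a, -b; b, a] := by
        have e0 : S i (β 0) = a • β 0 + b • β 1 := by
          rw [h, hβ0, hβ1]; rfl
        have e1 : S i (β 1) = a • β 1 - b • β 0 := by
          rw [h, hβ0, hβ1]
          show a • J v + b • J (J v) = _
          rw [hJv]
          module
        ext p q
        rw [LinearMap.toMatrix_apply]
        fin_cases q
        · show β.repr (S i (β 0)) p = _
          rw [e0]
          fin_cases p <;> simp
        · show β.repr (S i (β 1)) p = _
          rw [e1]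
          fin_cases p <;> simp
      rw [hM]
      ext p q
      fin_cases p <;> fin_cases q <;> simp [Matrix.mul_apply, Fin.sum_univ_two] <;> ring

end R289.NORM
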