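import Pool.Agent.H787.G.R_seed8.R877.RN.Stm2
import Pool.Agent.H787.G.R_seed8.R289.RN.NORM2

/-! NORM: commuting semisimple operators are simultaneously normal in some basis -/

set_option autoImplicit false

namespace R877.RN

open Matrix

theorem p_NORM : P_NORM := by
  intro V _ _ _ N m S hN hss hcom
  obtain ⟨κ, _, _, β₀, h₀⟩ := R289.NORM.good_all (Module.finrank ℝ V) V S le_rfl hss hcom
  have hcard : Fintype.card κ = N := by
    rw [← hN, Module.finrank_eq_card_basis β₀]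
  let e : κ ≃ Fin N := Fintype.equivFinOfCardEq hcard
  let β₁ : Module.Basis (Fin N) ℝ V := β₀.reindex e
  have h₁ : ∀ i, LinearMap.toMatrix β₁ β₁ (S i) * (LinearMap.toMatrix β₁ β₁ (S i))ᵀ
      = (LinearMap.toMatrix β₁ β₁ (S i))ᵀ * LinearMap.toMatrix β₁ β₁ (S i) := by
    intro i
    have hM : LinearMap.toMatrix β₁ β₁ (S i) =
        (LinearMap.toMatrix β₀ β₀ (S i)).submatrix e.symm e.symm := by
      ext p q
      simp [LinearMap.toMatrix_apply, β₁]
    rw [hM, transpose_submatrix, submatrix_mul_equiv, submatrix_mul_equiv, h₀ i]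
  -- rotate
  set M : Fin (m+1) → Matrix (Fin N) (Fin N) ℝ := fun i => LinearMap.toMatrix β₁ β₁ (S i) with hMdef
  have hsym : (sy (M (Fin.last m))).IsHermitian := by
    show (sy (M (Fin.last m)))ᴴ = _
    rw [conjTranspose_eq_transpose_of_trivial, sy, transpose_smul, transpose_add,
      transpose_transpose, add_comm]
  let U : Matrix (Fin N) (Fin N) ℝ := (hsym.eigenvectorUnitary : Matrix (Fin N) (Fin N) ℝ)
  have hU1 : U * Uᵀ = 1 := by
    have := Matrix.mem_unitaryGroup_iff.1 hsym.eigenvectorUnitary.2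
    rwa [star_eq_conjTranspose, conjTranspose_eq_transpose_of_trivial] at this
  have hU2 : Uᵀ * U = 1 := by
    have := Matrix.mem_unitaryGroup_iff'.1 hsym.eigenvectorUnitary.2
    rwa [star_eq_conjTranspose, conjTranspose_eq_transpose_of_trivial] at this
  have hdiag : ∃ d : Fin N → ℝ, Uᵀ * sy (M (Fin.last m)) * U = diagonal d := by
    have h := hsym.spectral_theorem
    refine ⟨RCLike.ofReal ∘ hsym.eigenvalues, ?_⟩
    rw [Unitary.conjStarAlgAut_apply] at h
    rw [star_eq_conjTranspose, conjTranspose_eq_transpose_of_trivial] at h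
    have h' : sy (M (Fin.last m)) = U * diagonal (RCLike.ofReal ∘ hsym.eigenvalues) * Uᵀ := h
    conv_lhs => rw [h']
    rw [← Matrix.mul_assoc, ← Matrix.mul_assoc, hU2, Matrix.one_mul, Matrix.mul_assoc, hU2,
      Matrix.mul_one]
  obtain ⟨d, hd⟩ := hdiag
  let f : V →ₗ[ℝ] V := Matrix.toLin β₁ β₁ U
  let g : V →ₗ[ℝ] V := Matrix.toLin β₁ β₁ Uᵀ
  have hfg : f.comp g = LinearMap.id := by
    rw [← Matrix.toLin_mul, hU1, Matrix.toLin_one]
  have hgf : g.comp f = LinearMap.id := by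
    rw [← Matrix.toLin_mul, hU2, Matrix.toLin_one]
  let E : V ≃ₗ[ℝ] V := LinearEquiv.ofLinear f g hfg hgf
  let γ : Module.Basis (Fin N) ℝ V := β₁.map E
  have hγ : ∀ T : Module.End ℝ V, LinearMap.toMatrix γ γ T =
      Uᵀ * LinearMap.toMatrix β₁ β₁ T * U := by
    intro T
    have h1 : LinearMap.toMatrix γ γ T = LinearMap.toMatrix β₁ β₁ (g.comp (T.comp f)) := by
      ext p q
      rw [LinearMap.toMatrix_apply, LinearMap.toMatrix_apply]
      rfl
    rw [h1, LinearMap.toMatrix_comp β₁ β₁ β₁, LinearMap.toMatrix_comp β₁ β₁ β₁,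
      LinearMap.toMatrix_toLin, LinearMap.toMatrix_toLin, Matrix.mul_assoc]
  refine ⟨γ, d, ?_, ?_⟩
  · intro i
    rw [hγ]
    have h2 := h₁ i
    set A := LinearMap.toMatrix β₁ β₁ (S i)
    have t1 : (Uᵀ * A * U)ᵀ = Uᵀ * Aᵀ * U := by
      rw [transpose_mul, transpose_mul, transpose_transpose, Matrix.mul_assoc]
    rw [t1]
    have t2 : Uᵀ * A * U * (Uᵀ * Aᵀ * U) = Uᵀ * (A * Aᵀ) * U := by
      calc Uᵀ * A * U * (Uᵀ * Aᵀ * U) = Uᵀ * A * (U * Uᵀ) * Aᵀ * U := by
            simp only [Matrix.mul_assoc]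
        _ = _ := by rw [hU1]; simp only [Matrix.mul_assoc, Matrix.mul_one, Matrix.one_mul]
    have t3 : Uᵀ * Aᵀ * U * (Uᵀ * A * U) = Uᵀ * (Aᵀ * A) * U := by
      calc Uᵀ * Aᵀ * U * (Uᵀ * A * U) = Uᵀ * Aᵀ * (U * Uᵀ) * A * U := by
            simp only [Matrix.mul_assoc]
        _ = _ := by rw [hU1]; simp only [Matrix.mul_assoc, Matrix.mul_one, Matrix.one_mul]
    rw [t2, t3, h2]
  · rw [hγ, ← hd]
    show sy (Uᵀ * M (Fin.last m) * U) = _
    rw [sy, sy, transpose_mul, transpose_mul, transpose_transpose]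
    rw [Matrix.mul_smul, Matrix.smul_mul, Matrix.mul_add, Matrix.add_mul]
    simp only [Matrix.mul_assoc]

end R877.RN
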