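import Mathlib

/-! NORM, part 1: a family of commuting semisimple real operators has a basis in which all
matrices are normal -/

set_option autoImplicit false

namespace R289.NORM

open Matrix Polynomial Module

def Good {ι V : Type} [AddCommGroup V] [Module ℝ V] (S : ι → Module.End ℝ V) : Prop :=
  ∃ (κ : Type) (_ : Fintype κ) (_ : DecidableEq κ) (β : Module.Basis κ ℝ V),
    ∀ i, LinearMap.toMatrix β β (S i) * (LinearMap.toMatrix β β (S i))ᵀ
      = (LinearMap.toMatrix β β (S i))ᵀ * LinearMap.toMatrix β β (S i)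

theorem good_split {ι V : Type} [AddCommGroup V] [Module ℝ V] (S : ι → Module.End ℝ V)
    (W₁ W₂ : Submodule ℝ V) (h₁ : ∀ i, ∀ x ∈ W₁, S i x ∈ W₁) (h₂ : ∀ i, ∀ x ∈ W₂, S i x ∈ W₂)
    (hc : IsCompl W₁ W₂) (g₁ : Good (fun i => (S i).restrict (h₁ i)))
    (g₂ : Good (fun i => (S i).restrict (h₂ i))) : Good S := by
  obtain ⟨κ₁, _, _, β₁, n₁⟩ := g₁
  obtain ⟨κ₂, _, _, β₂, n₂⟩ := g₂
  let e := Submodule.prodEquivOfIsCompl W₁ W₂ hc
  let β : Module.Basis (κ₁ ⊕ κ₂) ℝ V := (β₁.prod β₂).map e
  refine ⟨κ₁ ⊕ κ₂, inferInstance, inferInstance, β, fun i => ?_⟩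
  have hl : ∀ w : W₁, e.symm (w : V) = (w, 0) := fun w =>
    Submodule.prodEquivOfIsCompl_symm_apply_left W₁ W₂ hc w
  have hr : ∀ w : W₂, e.symm (w : V) = (0, w) := fun w =>
    Submodule.prodEquivOfIsCompl_symm_apply_right W₁ W₂ hc w
  have hM : LinearMap.toMatrix β β (S i) =
      fromBlocks (LinearMap.toMatrix β₁ β₁ ((S i).restrict (h₁ i))) 0 0
        (LinearMap.toMatrix β₂ β₂ ((S i).restrict (h₂ i))) := by
    ext a b
    rw [LinearMap.toMatrix_apply]
    rcases b with b | b
    · have hb : β (Sum.inl b) = ((β₁ b : W₁) : V) := by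
        simp [β, e]
      have hs : S i (β (Sum.inl b)) = (((S i).restrict (h₁ i) (β₁ b) : W₁) : V) := by
        rw [hb]; rfl
      have hrep : β.repr (S i (β (Sum.inl b))) =
          (β₁.prod β₂).repr ((S i).restrict (h₁ i) (β₁ b), 0) := by
        rw [hs]
        show (β₁.prod β₂).repr (e.symm _) = _
        rw [hl]
      rw [hrep]
      rcases a with a | a
      · simp [LinearMap.toMatrix_apply]
      · simp
    · have hb : β (Sum.inr b) = ((β₂ b : W₂) : V) := by
        simp [β, e]
      have hs : S i (β (Sum.inr b)) = (((S i).restrict (h₂ i) (β₂ b) : W₂) : V) := by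
        rw [hb]; rfl
      have hrep : β.repr (S i (β (Sum.inr b))) =
          (β₁.prod β₂).repr (0, (S i).restrict (h₂ i) (β₂ b)) := by
        rw [hs]
        show (β₁.prod β₂).repr (e.symm _) = _
        rw [hr]
      rw [hrep]
      rcases a with a | a
      · simp
      · simp [LinearMap.toMatrix_apply]
  rw [hM, fromBlocks_transpose, fromBlocks_multiply, fromBlocks_multiply]
  simp [n₁ i, n₂ i]

theorem commute_aeval {V : Type} [AddCommGroup V] [Module ℝ V] {A B : Module.End ℝ V}
    (h : Commute A B) (p : ℝ[X]) : Commute A (aeval B p) := by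
  rw [aeval_eq_sum_range]
  refine Commute.sum_right _ _ _ fun i _ => ?_
  exact (h.pow_right i).smul_right _

theorem inv_ker {V : Type} [AddCommGroup V] [Module ℝ V] {A B : Module.End ℝ V}
    (h : Commute A B) : ∀ x ∈ LinearMap.ker B, A x ∈ LinearMap.ker B := by
  intro x hx
  rw [LinearMap.mem_ker] at hx ⊢
  have := congrArg (fun T : Module.End ℝ V => T x) h.eq
  simp only [Module.End.mul_apply] at this
  rw [← this, hx, map_zero]

/-- the structure of one operator when no invariant splitting exists -/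
theorem key {V : Type} [AddCommGroup V] [Module ℝ V] [FiniteDimensional ℝ V] [Nontrivial V]
    (A : Module.End ℝ V) (hs : A.IsSemisimple)
    (hA : ∀ p q : ℝ[X], IsCompl (LinearMap.ker (aeval A p)) (LinearMap.ker (aeval A q)) →
      LinearMap.ker (aeval A p) = ⊥ ∨ LinearMap.ker (aeval A q) = ⊥) :
    ∃ (a b : ℝ) (J : Module.End ℝ V), A = a • 1 + b • J ∧
      (b ≠ 0 → J * J = -1 ∧ J = b⁻¹ • (A - a • 1)) := by
  have hint : IsIntegral ℝ A := Algebra.IsIntegral.isIntegral A
  have hm0 : minpoly ℝ A ≠ 0 := minpoly.ne_zero hint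
  have hmu : ¬ IsUnit (minpoly ℝ A) := minpoly.not_isUnit ℝ A
  obtain ⟨p, hp, q, hpq⟩ := WfDvdMonoid.exists_irreducible_factor hmu hm0
  have hsq : Squarefree (minpoly ℝ A) := hs.minpoly_squarefree
  have hcop : IsCoprime p q := by
    rw [hp.coprime_iff_not_dvd]
    rintro ⟨t, ht⟩
    apply hp.not_isUnit
    apply hsq p
    rw [hpq, ht]
    exact ⟨t, by ring⟩
  have hcompl : IsCompl (LinearMap.ker (aeval A p)) (LinearMap.ker (aeval A q)) := by
    refine ⟨disjoint_ker_aeval_of_isCoprime A hcop, ?_⟩
    rw [codisjoint_iff, sup_ker_aeval_eq_ker_aeval_mul_of_coprime A hcop, ← hpq,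
      minpoly.aeval, LinearMap.ker_zero]
  have hp0 : aeval A p = 0 := by
    rcases hA p q hcompl with h | h
    · exfalso
      have h2 : LinearMap.ker (aeval A q) = ⊤ := by
        have := hcompl.sup_eq_top
        rwa [h, bot_sup_eq] at this
      rw [LinearMap.ker_eq_top] at h2
      have h3 : minpoly ℝ A ∣ q := minpoly.dvd ℝ A h2
      have hq0 : q ≠ 0 := by
        rintro rfl
        rw [mul_zero] at hpq
        exact hm0 hpq
      obtain ⟨t, ht⟩ := h3
      rw [hpq] at ht
      have h4 : q * (p * t) = q * 1 := by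
        rw [mul_one]
        conv_rhs => rw [ht]
        ring
      exact hp.not_isUnit (IsUnit.of_mul_eq_one t (mul_left_cancel₀ hq0 h4))
    · have h2 : LinearMap.ker (aeval A p) = ⊤ := by
        have := hcompl.sup_eq_top
        rwa [h, sup_bot_eq] at this
      rwa [LinearMap.ker_eq_top] at h2
  have hdeg : p.natDegree ≤ 2 := natDegree_le_of_degree_le hp.degree_le_two
  have hdeg0 : p.natDegree ≠ 0 := by
    intro h
    exact absurd hp.degree_pos (by
      rw [← natDegree_pos_iff_degree_pos, h]; exact lt_irrefl _)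
  have hform : p = C (p.coeff 2) * X ^ 2 + C (p.coeff 1) * X + C (p.coeff 0) := by
    conv_lhs => rw [as_sum_range_C_mul_X_pow' p (show p.natDegree < 3 by omega)]
    simp [Finset.sum_range_succ]
    ring
  set u := p.coeff 2 with hu
  set v := p.coeff 1 with hv
  set w := p.coeff 0 with hw
  have hA2 : u • (A * A) + v • A + w • (1 : Module.End ℝ V) = 0 := by
    have h5 := hp0
    rw [hform] at h5
    simp only [map_add, map_mul, aeval_C, map_pow, aeval_X] at h5
    rw [Algebra.algebraMap_eq_smul_one, Algebra.algebraMap_eq_smul_one,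
      Algebra.algebraMap_eq_smul_one] at h5
    simp only [smul_mul_assoc, one_mul] at h5
    rw [pow_two] at h5
    exact h5
  by_cases hu0 : u = 0
  · have hv0 : v ≠ 0 := by
      intro hv0
      apply hdeg0
      rw [hform, hu0, hv0]
      simp
    refine ⟨-(w / v), 0, 0, ?_, fun h => absurd rfl h⟩
    rw [hu0, zero_smul, zero_add] at hA2
    have h6 : v • A = v • (-(w / v) • (1 : Module.End ℝ V)) := by
      rw [smul_smul]
      have : v * -(w / v) = -w := by field_simp
      rw [this, neg_smul]
      exact eq_neg_of_add_eq_zero_left hA2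
    rw [zero_smul, add_zero]
    have h7 := congrArg (fun T => v⁻¹ • T) h6
    simp only [smul_smul] at h7
    rw [inv_mul_cancel₀ hv0, one_smul] at h7
    rw [h7]
    congr 1
    field_simp
  · set a : ℝ := -(v / (2 * u)) with ha
    set δ : ℝ := w / u - a ^ 2 with hδ
    have hsqr : (A - a • 1) * (A - a • 1) = -(δ • (1 : Module.End ℝ V)) := by
      have h8 : A * A = -((v / u) • A) - (w / u) • (1 : Module.End ℝ V) := by
        have h9 := congrArg (fun T => u⁻¹ • T) hA2
        simp only [smul_add, smul_smul, smul_zero] at h9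
        rw [inv_mul_cancel₀ hu0, one_smul] at h9
        have e1 : u⁻¹ * v = v / u := by field_simp
        have e2 : u⁻¹ * w = w / u := by field_simp
        rw [e1, e2] at h9
        have h10 : A * A + ((v / u) • A + (w / u) • (1 : Module.End ℝ V)) = 0 := by
          rw [← add_assoc]; exact h9
        rw [eq_neg_of_add_eq_zero_left h10]
        abel
      have e3 : v / u = -(2 * a) := by
        rw [ha]; field_simp
      rw [sub_mul, mul_sub, mul_sub, h8, e3]
      simp only [smul_mul_assoc, mul_smul_comm, one_mul, mul_one, smul_smul]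
      have e4 : δ = w / u - a * a := by rw [hδ]; ring
      rw [e4, sub_smul]
      module
    have hδpos : 0 < δ := by
      by_contra hneg
      push Not at hneg
      have hroot : p.IsRoot (a + Real.sqrt (-δ)) := by
        rw [IsRoot, hform]
        simp only [eval_add, eval_mul, eval_C, eval_pow, eval_X]
        have h11 : Real.sqrt (-δ) ^ 2 = -δ := Real.sq_sqrt (by linarith)
        have h12 : u * (a + Real.sqrt (-δ)) ^ 2 + v * (a + Real.sqrt (-δ)) + w
            = u * a ^ 2 + v * a + w + u * Real.sqrt (-δ) ^ 2 + (2 * u * a + v) * Real.sqrt (-δ) := by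
          ring
        rw [h12, h11, hδ, ha]
        field_simp
        ring
      have h13 := degree_eq_one_of_irreducible_of_root hp hroot
      have h14 : p.natDegree = 1 := natDegree_eq_of_degree_eq_some h13
      apply hu0
      rw [hu]
      exact coeff_eq_zero_of_natDegree_lt (by omega)
    have hb : 0 < Real.sqrt δ := Real.sqrt_pos.2 hδpos
    refine ⟨a, Real.sqrt δ, (Real.sqrt δ)⁻¹ • (A - a • 1), ?_, fun _ => ⟨?_, rfl⟩⟩
    · rw [smul_smul, mul_inv_cancel₀ hb.ne', one_smul]
      abel
    · rw [smul_mul_smul_comm, hsqr, ← mul_inv, Real.mul_self_sqrt hδpos.le, smul_neg, smul_smul,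
        inv_mul_cancel₀ hδpos.ne', one_smul]

end R289.NORM
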